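import Mathlib

set_option autoImplicit false
open Complex Filter Topology

namespace Pool.Agent.H.MP_2e654e_an

theorem norm_cos_le_cosh (u : ℂ) : ‖cos u‖ ≤ Real.cosh u.im := by
  rw [Complex.cos, Real.cosh_eq, norm_div]
  have h1 : ‖cexp (u * I)‖ = Real.exp (-u.im) := by rw [norm_exp]; simp
  have h2 : ‖cexp (-u * I)‖ = Real.exp u.im := by rw [norm_exp]; simp
  have := norm_add_le (cexp (u * I)) (cexp (-u * I))
  rw [h1, h2] at this
  simp only [Complex.norm_ofNat]
  linarith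

theorem cosh_le_exp_abs (y : ℝ) : Real.cosh y ≤ Real.exp |y| := by
  rw [Real.cosh_eq]
  have h1 := Real.exp_le_exp.2 (le_abs_self y)
  have h2 := Real.exp_le_exp.2 (neg_le_abs y)
  linarith

theorem exp_le_cosh (y : ℝ) : Real.exp (y - 1) ≤ Real.cosh y := by
  rw [Real.cosh_eq, Real.exp_sub]
  have h1 : (2 : ℝ) ≤ Real.exp 1 := by have := Real.add_one_le_exp 1; linarith
  have h2 := Real.exp_pos (-y)
  have h3 : Real.exp y / Real.exp 1 ≤ Real.exp y / 2 :=
    div_le_div_of_nonneg_left (Real.exp_pos y).le (by norm_num) h1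
  linarith

theorem norm_cos_sub_one (u : ℂ) (h : ‖u‖ ≤ 1) : ‖cos u - 1‖ ≤ ‖u‖ ^ 2 := by
  have h1 := Complex.cos_bound h
  have h2 : ‖cos u - 1‖ ≤ ‖cos u - (1 - u ^ 2 / 2)‖ + ‖u ^ 2 / 2‖ := by
    have : cos u - 1 = (cos u - (1 - u ^ 2 / 2)) - u ^ 2 / 2 := by ring
    rw [this]; exact norm_sub_le _ _
  have h3 : ‖u ^ 2 / 2‖ = ‖u‖ ^ 2 / 2 := by simp
  have h4 : ‖u‖ ^ 4 ≤ ‖u‖ ^ 2 := pow_le_pow_of_le_one (norm_nonneg _) h (by norm_num)
  have h5 : 0 ≤ ‖u‖ ^ 2 := by positivity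
  linarith

theorem exp_sub_one_le {s : ℝ} (h0 : 0 ≤ s) (h1 : s ≤ 1) : Real.exp s - 1 ≤ 2 * s := by
  have := Real.abs_exp_sub_one_le (x := s) (by rwa [abs_of_nonneg h0])
  rw [abs_of_nonneg h0] at this
  exact (le_abs_self _).trans this

theorem norm_cos_pow_sub_one (u : ℂ) (m : ℕ) (hm : 1 ≤ m) (h : m * ‖u‖ ^ 2 ≤ 1) :
    ‖cos u ^ m - 1‖ ≤ 2 * (m * ‖u‖ ^ 2) := by
  have hm' : (1 : ℝ) ≤ m := by exact_mod_cast hm
  have hu2 : ‖u‖ ^ 2 ≤ 1 := by nlinarith [sq_nonneg ‖u‖]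
  have hu : ‖u‖ ≤ 1 := by nlinarith [norm_nonneg u]
  have h1 := Finset.norm_prod_one_add_sub_one_le (Finset.range m) (fun _ => cos u - 1)
  simp only [add_sub_cancel, Finset.prod_const, Finset.card_range, Finset.sum_const,
    nsmul_eq_mul] at h1
  have h2 : (m : ℝ) * ‖cos u - 1‖ ≤ m * ‖u‖ ^ 2 :=
    mul_le_mul_of_nonneg_left (norm_cos_sub_one u hu) (by positivity)
  have h3 := exp_sub_one_le (s := m * ‖u‖ ^ 2) (by positivity) h
  have h4 := Real.exp_le_exp.2 h2
  linarith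

def R : ℕ → ℕ
  | 0 => 2000
  | k + 1 => R k ^ 3

theorem R_ge (k : ℕ) : 2000 * 2 ^ k ≤ R k := by
  induction k with
  | zero => simp [R]
  | succ k ih =>
    have h1 : 2 ≤ R k := le_trans (by have := Nat.one_le_two_pow (n := k); omega) ih
    have : 2 * R k ≤ R k ^ 3 := by nlinarith [Nat.mul_le_mul h1 h1]
    simp only [R, pow_succ 2]; omega

theorem R_pos (k : ℕ) : 0 < R k := lt_of_lt_of_le (by positivity) (R_ge k)

theorem R_dvd {k K : ℕ} (h : k ≤ K) : R k ∣ R K := by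
  induction K, h using Nat.le_induction with
  | base => exact dvd_rfl
  | succ K _ ih => exact ih.trans (dvd_pow_self _ (by norm_num))

theorem R_big {k K : ℕ} (h : K < k) : 1000 * 2 ^ k * R K ^ 2 ≤ R k := by
  obtain ⟨j, rfl⟩ : ∃ j, k = j + 1 := ⟨k - 1, by omega⟩
  have h1 : R K ≤ R j := Nat.le_of_dvd (R_pos j) (R_dvd (by omega))
  have h2 := R_ge j
  calc 1000 * 2 ^ (j + 1) * R K ^ 2 = (2000 * 2 ^ j) * R K ^ 2 := by ring
    _ ≤ R j * R j ^ 2 := Nat.mul_le_mul h2 (Nat.pow_le_pow_left h1 2)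
    _ = R (j + 1) := by simp only [R]; ring

theorem R_ge' (k : ℕ) : (2000 : ℝ) * 2 ^ k ≤ R k := by exact_mod_cast R_ge k
theorem R_pos' (k : ℕ) : (0 : ℝ) < R k := by exact_mod_cast R_pos k

noncomputable def c (k : ℕ) (z : ℂ) : ℂ := cos (z / R k) ^ R k

noncomputable def F (z : ℂ) : ℂ := ∏' k, (1 + (c k z - 1))

noncomputable def P (n : ℕ) (z : ℂ) : ℂ := ∏ k ∈ Finset.range n, c k z

theorem c_diff (k : ℕ) : Differentiable ℂ (c k) := by unfold c; fun_prop

theorem sq_div (k : ℕ) (z : ℂ) : (R k : ℝ) * ‖z / R k‖ ^ 2 = ‖z‖ ^ 2 / R k := by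
  have := R_pos' k
  rw [norm_div, Complex.norm_natCast]; field_simp

theorem c_bound (ρ : ℝ) : ∀ᶠ k in atTop, ∀ z ∈ Metric.ball (0 : ℂ) ρ,
    ‖c k z - 1‖ ≤ 2 * (ρ ^ 2 * (1 / 2) ^ k) := by
  have h0 : Tendsto (fun k : ℕ => ρ ^ 2 * (1 / 2 : ℝ) ^ k) atTop (𝓝 (ρ ^ 2 * 0)) :=
    (tendsto_pow_atTop_nhds_zero_of_lt_one (by norm_num) (by norm_num)).const_mul _
  rw [mul_zero] at h0
  filter_upwards [h0.eventually (ge_mem_nhds one_pos)] with k hk z hz
  have hz' : ‖z‖ < ρ := by simpa using hz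
  have h1 : ‖z‖ ^ 2 / R k ≤ ρ ^ 2 * (1 / 2) ^ k := by
    rw [one_div_pow, mul_one_div]
    have := R_ge' k
    have h2 : (0 : ℝ) < 2 ^ k := by positivity
    exact div_le_div₀ (by positivity) (by nlinarith [norm_nonneg z]) h2 (by linarith)
  have := norm_cos_pow_sub_one (z / R k) (R k) (R_pos k) (by rw [sq_div]; linarith)
  rw [sq_div] at this
  unfold c
  linarith

theorem u_summ (ρ : ℝ) : Summable fun k : ℕ => 2 * (ρ ^ 2 * (1 / 2 : ℝ) ^ k) :=
  (summable_geometric_two.mul_left _).mul_left _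

theorem F_loc (ρ : ℝ) : TendstoLocallyUniformlyOn P F atTop (Metric.ball 0 ρ) := by
  have := (Summable.hasProdLocallyUniformlyOn_nat_one_add (f := fun k z => c k z - 1)
    Metric.isOpen_ball (u_summ ρ) (c_bound ρ)
    (fun k => ((c_diff k).continuous.sub continuous_const).continuousOn)
    ).tendstoLocallyUniformlyOn_finsetRange
  refine this.congr ?_
  intro n z _
  simp [P]

theorem P_diff (n : ℕ) : Differentiable ℂ (P n) := by
  unfold P
  exact Differentiable.fun_finsetProd fun k _ => c_diff k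

theorem F_diff : Differentiable ℂ F := by
  intro z
  have h := (F_loc (‖z‖ + 1)).differentiableOn
    (Eventually.of_forall fun n => (P_diff n).differentiableOn) Metric.isOpen_ball
  exact h.differentiableAt (Metric.isOpen_ball.mem_nhds (by simp))

theorem P_tend (z : ℂ) : Tendsto (fun n => P n z) atTop (𝓝 (F z)) :=
  (F_loc (‖z‖ + 1)).tendsto_at (by simp)

theorem F_zero (z : ℂ) (h : F z = 0) : z.im = 0 := by
  by_contra hz
  refine tprod_one_add_ne_zero_of_summable (f := fun k => c k z - 1) ?_ ?_ h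
  · intro k hk
    have h1 : c k z = 0 := by simpa using hk
    have h2 : cos (z / R k) = 0 := pow_eq_zero_iff (R_pos k).ne' |>.1 h1
    obtain ⟨j, hj⟩ := Complex.cos_eq_zero_iff.1 h2
    have h3 : (R k : ℂ) ≠ 0 := by exact_mod_cast (R_pos k).ne'
    have h4 : z = (((2 * j + 1) * Real.pi / 2 * R k : ℝ) : ℂ) := by
      push_cast; rw [← hj]; field_simp
    exact hz (by rw [h4]; exact Complex.ofReal_im _)
  · refine Summable.of_norm_bounded_eventually_nat (u_summ (‖z‖ + 1)) ?_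
    filter_upwards [c_bound (‖z‖ + 1)] with k hk
    simpa using hk z (by simp)

theorem F_even (z : ℂ) : F (-z) = F z := by
  unfold F c; simp [neg_div]

theorem F_real (x : ℝ) : (F x).im = 0 := by
  have h1 := (Complex.continuous_im.tendsto _).comp (P_tend x)
  have h2 : (Complex.im ∘ fun n => P n x) = fun _ => 0 := by
    funext n
    have : P n x = ((∏ k ∈ Finset.range n, Real.cos (x / R k) ^ R k : ℝ) : ℂ) := by
      simp [P, c]
    simp only [Function.comp, this, Complex.ofReal_im]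
  rw [h2] at h1
  exact tendsto_nhds_unique h1 tendsto_const_nhds

theorem F_le (z : ℂ) (b : ℕ → ℝ) (B : ℝ) (hb : ∀ k, ‖c k z‖ ≤ Real.exp (b k))
    (hB : ∀ n, ∑ k ∈ Finset.range n, b k ≤ B) : ‖F z‖ ≤ Real.exp B := by
  refine le_of_tendsto' (P_tend z).norm fun n => ?_
  unfold P
  rw [norm_prod]
  calc ∏ k ∈ Finset.range n, ‖c k z‖ ≤ ∏ k ∈ Finset.range n, Real.exp (b k) :=
        Finset.prod_le_prod (fun _ _ => norm_nonneg _) fun k _ => hb k
    _ = Real.exp (∑ k ∈ Finset.range n, b k) := (Real.exp_sum _ _).symm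
    _ ≤ _ := Real.exp_le_exp.2 (hB n)

theorem im_div (k : ℕ) (z : ℂ) : (z / R k).im = z.im / R k := by
  have : (R k : ℂ) = ((R k : ℝ) : ℂ) := by simp
  rw [this, Complex.div_ofReal_im]

theorem c_le1 (k : ℕ) (z : ℂ) : ‖c k z‖ ≤ Real.exp |z.im| := by
  unfold c
  have h := (norm_cos_le_cosh (z / R k)).trans (cosh_le_exp_abs _)
  have hR := R_pos' k
  rw [norm_pow]
  refine (pow_le_pow_left₀ (norm_nonneg _) h _).trans (le_of_eq ?_)
  rw [← Real.exp_nat_mul, im_div, abs_div, abs_of_pos hR]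
  congr 1; field_simp

theorem c_le2 (k : ℕ) (z : ℂ) : ‖c k z‖ ≤ Real.exp (z.im ^ 2 / R k) := by
  unfold c
  have h := (norm_cos_le_cosh (z / R k)).trans (Real.cosh_le_exp_half_sq _)
  have hR := R_pos' k
  rw [norm_pow]
  refine (pow_le_pow_left₀ (norm_nonneg _) h _).trans ?_
  rw [← Real.exp_nat_mul, im_div, Real.exp_le_exp]
  have : (R k : ℝ) * ((z.im / R k) ^ 2 / 2) = z.im ^ 2 / R k / 2 := by field_simp
  rw [this]
  have : 0 ≤ z.im ^ 2 / R k := by positivity
  linarith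

theorem geom_le {q : ℝ} (h0 : 0 ≤ q) (h1 : q < 1) (n : ℕ) :
    ∑ k ∈ Finset.range n, q ^ k ≤ (1 - q)⁻¹ := by
  rw [← tsum_geometric_of_lt_one h0 h1]
  exact (summable_geometric_of_lt_one h0 h1).sum_le_tsum _ fun _ _ => by positivity

theorem F_le_sq (z : ℂ) : ‖F z‖ ≤ Real.exp (z.im ^ 2) := by
  refine F_le z (fun k => z.im ^ 2 / 2 * (1 / 2) ^ k) _ (fun k => (c_le2 k z).trans ?_) ?_
  · rw [Real.exp_le_exp, one_div_pow, mul_one_div, div_div]
    have := R_ge' k
    have h2 : (0 : ℝ) < 2 ^ k := by positivity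
    exact div_le_div_of_nonneg_left (by positivity) (by positivity) (by linarith)
  · intro n
    rw [← Finset.mul_sum]
    have := geom_le (q := 1 / 2) (by norm_num) (by norm_num) n
    norm_num at this ⊢
    nlinarith [sq_nonneg z.im]

theorem F_le_pow (δ : ℝ) (h0 : 0 < δ) (h1 : δ ≤ 1) :
    ∃ A : ℝ, 0 < A ∧ ∀ z : ℂ, ‖F z‖ ≤ Real.exp (A * (‖z‖ * ‖z‖ ^ δ)) := by
  set q : ℝ := (1 / 2 : ℝ) ^ δ with hq
  have q0 : 0 ≤ q := by positivity
  have q1 : q < 1 := Real.rpow_lt_one (by norm_num) (by norm_num) h0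
  refine ⟨(1 - q)⁻¹, inv_pos.2 (by linarith), fun z => ?_⟩
  refine F_le z (fun k => (‖z‖ * ‖z‖ ^ δ) * q ^ k) _ (fun k => ?_) ?_
  · have hy : |z.im| ≤ ‖z‖ := Complex.abs_im_le_norm z
    have hR := R_ge' k
    have h2 : (0 : ℝ) < 2 ^ k := by positivity
    set s : ℝ := ‖z‖ * (1 / 2) ^ k with hs
    have s0 : 0 ≤ s := by positivity
    have e : (‖z‖ * ‖z‖ ^ δ) * q ^ k = ‖z‖ * s ^ δ := by
      rw [hs, Real.mul_rpow (norm_nonneg _) (by positivity), hq, ← Real.rpow_natCast,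
        ← Real.rpow_natCast, ← Real.rpow_mul (by norm_num), ← Real.rpow_mul (by norm_num),
        mul_comm δ]
      ring
    rw [e]
    rcases le_total 1 s with h | h
    · refine (c_le1 k z).trans (Real.exp_le_exp.2 ?_)
      have := Real.one_le_rpow h h0.le
      nlinarith [norm_nonneg z]
    · refine (c_le2 k z).trans (Real.exp_le_exp.2 ?_)
      have h3 := Real.self_le_rpow_of_le_one s0 h h1
      have h4 : z.im ^ 2 / R k ≤ ‖z‖ * s := by
        rw [hs, one_div_pow, mul_one_div, ← mul_div_assoc]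
        have : z.im ^ 2 ≤ ‖z‖ * ‖z‖ := by
          rw [← sq_abs]; nlinarith [abs_nonneg z.im]
        exact div_le_div₀ (by positivity) this h2 (by linarith)
      nlinarith [norm_nonneg z]
  · intro n
    rw [← Finset.mul_sum, mul_comm]
    exact mul_le_mul_of_nonneg_right (geom_le q0 q1 n) (by positivity)

theorem F_ge_im (N : ℕ) (y : ℝ) :
    Real.exp (N * y - ∑ k ∈ Finset.range N, (R k : ℝ)) ≤ ‖F (y * I)‖ := by
  have hc : ∀ k, ‖c k (y * I)‖ = Real.cosh (y / R k) ^ R k := by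
    intro k
    unfold c
    have : (y : ℂ) * I / R k = ((y / R k : ℝ) : ℂ) * I := by push_cast; ring
    rw [this, Complex.cos_mul_I, norm_pow, ← Complex.ofReal_cosh, Complex.norm_real,
      Real.norm_eq_abs, abs_of_pos (Real.cosh_pos _)]
  refine ge_of_tendsto (P_tend _).norm ?_
  filter_upwards [eventually_ge_atTop N] with n hn
  unfold P
  rw [norm_prod]
  calc Real.exp (N * y - ∑ k ∈ Finset.range N, (R k : ℝ))
      = ∏ k ∈ Finset.range N, Real.exp (y - R k) := by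
        rw [← Real.exp_sum]; simp [Finset.sum_sub_distrib]
    _ ≤ ∏ k ∈ Finset.range N, ‖c k (y * I)‖ := by
        refine Finset.prod_le_prod (fun _ _ => (Real.exp_pos _).le) fun k _ => ?_
        rw [hc]
        have hR := R_pos' k
        have : y - R k = R k * (y / R k - 1) := by field_simp
        rw [this, Real.exp_nat_mul]
        exact pow_le_pow_left₀ (Real.exp_pos _).le (exp_le_cosh _) _
    _ ≤ ∏ k ∈ Finset.range n, ‖c k (y * I)‖ := by
        refine Finset.prod_le_prod_of_subset_of_one_le (Finset.range_subset_range.2 hn)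
          (fun _ _ => norm_nonneg _) fun k _ _ => ?_
        rw [hc]
        exact one_le_pow₀ (Real.one_le_cosh _)

theorem F_near (K : ℕ) (w : ℂ) (hw : ‖w‖ ≤ 5) : 1 / 2 ≤ ‖F (w + R K * (2 * Real.pi))‖ := by
  set z : ℂ := w + R K * (2 * Real.pi) with hz
  have hk : ∀ k, ‖c k z - 1‖ ≤ 1 / 8 * (1 / 2) ^ k := by
    intro k
    have hR := R_ge' k
    have h2 : (0 : ℝ) < 2 ^ k := by positivity
    have h21 : (1 : ℝ) ≤ 2 ^ k := one_le_pow₀ (by norm_num)
    have key : ∀ v : ℂ, ‖v‖ ^ 2 / R k ≤ 1 / 16 * (1 / 2) ^ k →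
        ‖c k v - 1‖ ≤ 1 / 8 * (1 / 2) ^ k := by
      intro v hv
      have h3 : (1 / 2 : ℝ) ^ k ≤ 1 := pow_le_one₀ (by norm_num) (by norm_num)
      have := norm_cos_pow_sub_one (v / R k) (R k) (R_pos k) (by rw [sq_div]; linarith)
      rw [sq_div] at this
      unfold c
      linarith
    rcases le_or_gt k K with h | h
    · obtain ⟨m, hm⟩ := R_dvd h
      have h3 : (R k : ℂ) ≠ 0 := by exact_mod_cast (R_pos k).ne'
      have e : c k z = c k w := by
        unfold c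
        have : z / R k = w / R k + m * (2 * Real.pi) := by
          rw [hz, hm]; push_cast; field_simp
        rw [this, Complex.cos_add_nat_mul_two_pi]
      rw [e]
      refine key w ?_
      rw [one_div_pow, div_mul_div_comm, div_le_div_iff₀ (R_pos' k) (by positivity)]
      have : ‖w‖ ^ 2 ≤ 25 := by nlinarith [norm_nonneg w]
      nlinarith
    · refine key z ?_
      have hb : (1000 : ℝ) * 2 ^ k * (R K : ℝ) ^ 2 ≤ R k := by exact_mod_cast R_big h
      have hK := R_ge' K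
      have hK1 : (1 : ℝ) ≤ 2 ^ K := one_le_pow₀ (by norm_num)
      have hzn : ‖z‖ ≤ 7 * R K := by
        refine (norm_add_le _ _).trans ?_
        have : ‖(R K : ℂ) * (2 * Real.pi)‖ = R K * (2 * Real.pi) := by
          simp [abs_of_pos Real.pi_pos]
        rw [this]
        have := Real.pi_lt_d2
        nlinarith
      have hz2 : ‖z‖ ^ 2 ≤ 49 * (R K : ℝ) ^ 2 := by nlinarith [norm_nonneg z]
      rw [one_div_pow, div_mul_div_comm, div_le_div_iff₀ (R_pos' k) (by positivity)]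
      have : (0 : ℝ) ≤ 2 ^ k * (R K : ℝ) ^ 2 := by positivity
      nlinarith
  refine ge_of_tendsto' (P_tend _).norm fun n => ?_
  have h1 := Finset.norm_prod_one_add_sub_one_le (Finset.range n) (fun k => c k z - 1)
  simp only [add_sub_cancel] at h1
  have h2 : ∑ k ∈ Finset.range n, ‖c k z - 1‖ ≤ 1 / 4 := by
    refine (Finset.sum_le_sum fun k _ => hk k).trans ?_
    rw [← Finset.mul_sum]
    have := geom_le (q := 1 / 2) (by norm_num) (by norm_num) n
    norm_num at this ⊢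
    linarith
  have h3 := Real.exp_le_exp.2 h2
  have h4 := exp_sub_one_le (s := 1 / 4) (by norm_num) (by norm_num)
  have h5 : ‖(1 : ℂ)‖ ≤ ‖P n z‖ + ‖P n z - 1‖ := by
    have : (1 : ℂ) = P n z - (P n z - 1) := by ring
    conv_lhs => rw [this]
    exact norm_sub_le _ _
  unfold P at h5 ⊢
  rw [norm_one] at h5
  linarith

end Pool.Agent.H.MP_2e654e_an
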